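import Mathlib

/-!
# A nearest-lower-neighbour augmentation that is not sphere packable

The connected graph `G` consists of two adjacent vertices `x`, `y`, of `126` further vertices adjacent
to both `x` and `y`, and of a vertex `z` adjacent to `x` only. It has a circle packing with unit disks
for `x`, `y` and `z`.
The height is `0` at `z` and `1` elsewhere, so every vertex is joined to `z` in the augmented graph `H`.
In `H` the vertices `x, y, z` are pairwise adjacent and have `126` common neighbours. After an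
inversion at the point where the balls of `x` and `y` touch, the other balls have equal radii, and
too many of them would touch the ball of `z`.
-/

namespace Pool.Agent.Results.MP_ffcab7_co.NotSpherePackable

/-- Closed balls with centres `c v` and radii `r v` in `ℝ^d` form a packing of `G`: the radii are
positive, distinct balls have disjoint interiors (the distance of the centres is at least the sum of
the radii), and distinct balls are tangent (equality) if and only if the vertices are adjacent. -/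
def IsPacking (d : ℕ) {V : Type} (G : SimpleGraph V) (c : V → EuclideanSpace ℝ (Fin d))
    (r : V → ℝ) : Prop :=
  (∀ v, 0 < r v) ∧ ∀ u v, u ≠ v →
    r u + r v ≤ dist (c u) (c v) ∧ (dist (c u) (c v) = r u + r v ↔ G.Adj u v)

/-- `G` is sphere packable in `ℝ^3`. -/
def SpherePackable {V : Type} (G : SimpleGraph V) : Prop :=
  ∃ (c : V → EuclideanSpace ℝ (Fin 3)) (r : V → ℝ), IsPacking 3 G c r

/-- `f` is a height function on `G`. -/
def IsHeight {V : Type} (G : SimpleGraph V) (f : V → ℤ) : Prop :=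
  ∀ u v, G.Adj u v → |f u - f v| ≤ 1

/-- `ν` chooses, for each vertex `v` for which there are vertices of smaller height, a vertex of
smaller height whose centre is nearest to the centre of `v`. -/
def IsNearestLower {V : Type} (c : V → EuclideanSpace ℝ (Fin 2)) (f : V → ℤ) (ν : V → V) : Prop :=
  ∀ v, (∃ u, f u < f v) → f (ν v) < f v ∧ ∀ u, f u < f v → dist (c (ν v)) (c v) ≤ dist (c u) (c v)

/-- The augmented graph: the edges of `G` and the edges between `v` and `ν v` for all `v` for which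
there are vertices of smaller height. -/
def augment {V : Type} (G : SimpleGraph V) (f : V → ℤ) (ν : V → V) : SimpleGraph V :=
  SimpleGraph.fromRel (fun a b => G.Adj a b ∨ ((∃ u, f u < f a) ∧ b = ν a))

/-- the vertices -/
inductive Vx : Type
  | x | y | z
  | w (k : Fin 126)

open Vx

instance : Finite Vx := by
  let f : Vx → Fin 3 ⊕ Fin 126 := fun v => match v with
    | x => Sum.inl 0
    | y => Sum.inl 1
    | z => Sum.inl 2
    | w k => Sum.inr k
  apply Finite.of_injective f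
  intro a b h
  cases a <;> cases b <;> simp_all [f]

/-- the graph `G` -/
def G0 : SimpleGraph Vx := SimpleGraph.fromRel (fun a b => match a, b with
  | x, y => True
  | x, z => True
  | x, w _ => True
  | y, w _ => True
  | _, _ => False)

/-- the number `m = 2k + 2` -/
noncomputable def mm (k : Fin 126) : ℝ := 2 * (k.1 : ℝ) + 2

/-- radii of the circle packing -/
noncomputable def rad : Vx → ℝ
  | x => 1
  | y => 1
  | z => 1
  | w k => 1 / (2 * mm k * (mm k + 1))

/-- centres of the circle packing -/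
noncomputable def cen : Vx → EuclideanSpace ℝ (Fin 2)
  | x => !₂[-1, 0]
  | y => !₂[1, 0]
  | z => !₂[-3, 0]
  | w k => !₂[0, (2 * mm k + 1) / (2 * mm k * (mm k + 1))]

theorem mm_pos (k : Fin 126) : 2 ≤ mm k := by
  unfold mm
  have : (0 : ℝ) ≤ (k.1 : ℝ) := Nat.cast_nonneg _
  linarith

theorem rad_w_pos (k : Fin 126) : 0 < rad (w k) := by
  have := mm_pos k
  unfold rad
  positivity

theorem rad_w_le (k : Fin 126) : rad (w k) ≤ 1 := by
  have := mm_pos k
  unfold rad
  rw [div_le_one (by positivity)]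
  nlinarith

theorem dist_eq2 (a b c d : ℝ) :
    dist (!₂[a, b] : EuclideanSpace ℝ (Fin 2)) !₂[c, d] = Real.sqrt ((a - c) ^ 2 + (b - d) ^ 2) := by
  rw [EuclideanSpace.dist_eq]
  simp [Fin.sum_univ_two, Real.dist_eq, sq_abs]

theorem dist_xy : dist (cen x) (cen y) = 2 := by
  simp only [cen]
  rw [dist_eq2]
  norm_num

theorem dist_xz : dist (cen x) (cen z) = 2 := by
  simp only [cen]
  rw [dist_eq2]
  norm_num

theorem dist_yz : 2 < dist (cen y) (cen z) := by
  simp only [cen]
  rw [dist_eq2]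
  apply Real.lt_sqrt_of_sq_lt
  norm_num

theorem key_tangent (k : Fin 126) :
    1 + ((2 * mm k + 1) / (2 * mm k * (mm k + 1))) ^ 2 = (1 + rad (w k)) ^ 2 := by
  have := mm_pos k
  unfold rad
  field_simp
  ring

theorem dist_xw (k : Fin 126) : dist (cen x) (cen (w k)) = 1 + rad (w k) := by
  have hr := rad_w_pos k
  simp only [cen]
  rw [dist_eq2]
  rw [show (-1 - 0 : ℝ) ^ 2 + (0 - (2 * mm k + 1) / (2 * mm k * (mm k + 1))) ^ 2 =
    1 + ((2 * mm k + 1) / (2 * mm k * (mm k + 1))) ^ 2 by ring, key_tangent]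
  exact Real.sqrt_sq (by linarith)

theorem dist_yw (k : Fin 126) : dist (cen y) (cen (w k)) = 1 + rad (w k) := by
  have hr := rad_w_pos k
  simp only [cen]
  rw [dist_eq2]
  rw [show (1 - 0 : ℝ) ^ 2 + (0 - (2 * mm k + 1) / (2 * mm k * (mm k + 1))) ^ 2 =
    1 + ((2 * mm k + 1) / (2 * mm k * (mm k + 1))) ^ 2 by ring, key_tangent]
  exact Real.sqrt_sq (by linarith)

theorem dist_zw (k : Fin 126) : 1 + rad (w k) < dist (cen z) (cen (w k)) := by
  have hr := rad_w_pos k
  have hr1 := rad_w_le k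
  have hm := mm_pos k
  simp only [cen]
  rw [dist_eq2]
  apply Real.lt_sqrt_of_sq_lt
  have h1 := key_tangent k
  nlinarith

theorem dist_ww_lt {k l : Fin 126} (h : k < l) :
    rad (w k) + rad (w l) < dist (cen (w k)) (cen (w l)) := by
  have hk := mm_pos k
  have hl := mm_pos l
  have hkl : mm k + 2 ≤ mm l := by
    unfold mm
    have : (k.1 : ℝ) + 1 ≤ (l.1 : ℝ) := by exact_mod_cast h
    linarith
  simp only [cen]
  rw [dist_eq2]
  have e1 : (2 * mm k + 1) / (2 * mm k * (mm k + 1)) - rad (w k) = 1 / (mm k + 1) := by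
    unfold rad
    field_simp
    ring
  have e2 : (2 * mm l + 1) / (2 * mm l * (mm l + 1)) + rad (w l) = 1 / mm l := by
    unfold rad
    field_simp
    ring
  have e3 : 1 / mm l < 1 / (mm k + 1) := by
    apply one_div_lt_one_div_of_lt <;> linarith
  rw [show ((0 : ℝ) - 0) ^ 2 + ((2 * mm k + 1) / (2 * mm k * (mm k + 1)) -
    (2 * mm l + 1) / (2 * mm l * (mm l + 1))) ^ 2 = ((2 * mm k + 1) / (2 * mm k * (mm k + 1)) -
    (2 * mm l + 1) / (2 * mm l * (mm l + 1))) ^ 2 by ring]
  rw [Real.sqrt_sq_eq_abs]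
  refine lt_of_lt_of_le ?_ (le_abs_self _)
  linarith

theorem G0_adj (a b : Vx) : G0.Adj a b ↔ (a = x ∧ b = y) ∨ (a = y ∧ b = x) ∨
    (a = x ∧ b = z) ∨ (a = z ∧ b = x) ∨
    (a = x ∧ ∃ k, b = w k) ∨ (a = y ∧ ∃ k, b = w k) ∨ (b = x ∧ ∃ k, a = w k) ∨
    (b = y ∧ ∃ k, a = w k) := by
  unfold G0
  rw [SimpleGraph.fromRel_adj]
  cases a <;> cases b <;> simp

theorem packing_of {a b : Vx} (h1 : rad a + rad b ≤ dist (cen a) (cen b))
    (h2 : dist (cen a) (cen b) = rad a + rad b ↔ G0.Adj a b) :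
    rad b + rad a ≤ dist (cen b) (cen a) ∧ (dist (cen b) (cen a) = rad b + rad a ↔ G0.Adj b a) := by
  rw [dist_comm, add_comm, SimpleGraph.adj_comm]
  exact ⟨h1, h2⟩

theorem packing : IsPacking 2 G0 cen rad := by
  have hx : rad x = 1 := rfl
  have hy : rad y = 1 := rfl
  have hz : rad z = 1 := rfl
  constructor
  · intro v
    cases v with
    | x => rw [hx]; norm_num
    | y => rw [hy]; norm_num
    | z => rw [hz]; norm_num
    | w k => exact rad_w_pos k
  · have hxy : rad x + rad y ≤ dist (cen x) (cen y) ∧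
        (dist (cen x) (cen y) = rad x + rad y ↔ G0.Adj x y) := by
      rw [dist_xy, hx, hy, G0_adj]
      norm_num
    have hxz : rad x + rad z ≤ dist (cen x) (cen z) ∧
        (dist (cen x) (cen z) = rad x + rad z ↔ G0.Adj x z) := by
      rw [dist_xz, hx, hz, G0_adj]
      norm_num
    have hyz : rad y + rad z ≤ dist (cen y) (cen z) ∧
        (dist (cen y) (cen z) = rad y + rad z ↔ G0.Adj y z) := by
      have := dist_yz
      rw [hy, hz, G0_adj]
      refine ⟨by linarith, ?_⟩
      simp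
      intro h
      linarith
    have hxw : ∀ k, rad x + rad (w k) ≤ dist (cen x) (cen (w k)) ∧
        (dist (cen x) (cen (w k)) = rad x + rad (w k) ↔ G0.Adj x (w k)) := by
      intro k
      rw [dist_xw, hx, G0_adj]
      simp
    have hyw : ∀ k, rad y + rad (w k) ≤ dist (cen y) (cen (w k)) ∧
        (dist (cen y) (cen (w k)) = rad y + rad (w k) ↔ G0.Adj y (w k)) := by
      intro k
      rw [dist_yw, hy, G0_adj]
      simp
    have hzw : ∀ k, rad z + rad (w k) ≤ dist (cen z) (cen (w k)) ∧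
        (dist (cen z) (cen (w k)) = rad z + rad (w k) ↔ G0.Adj z (w k)) := by
      intro k
      have := dist_zw k
      rw [hz, G0_adj]
      refine ⟨by linarith, ?_⟩
      simp
      intro h
      linarith
    have hww : ∀ k l, k < l → rad (w k) + rad (w l) ≤ dist (cen (w k)) (cen (w l)) ∧
        (dist (cen (w k)) (cen (w l)) = rad (w k) + rad (w l) ↔ G0.Adj (w k) (w l)) := by
      intro k l hkl
      have := dist_ww_lt hkl
      rw [G0_adj]
      refine ⟨by linarith, ?_⟩
      simp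
      intro h
      linarith
    intro a b hab
    cases a with
    | x =>
      cases b with
      | x => exact absurd rfl hab
      | y => exact hxy
      | z => exact hxz
      | w k => exact hxw k
    | y =>
      cases b with
      | x => exact packing_of hxy.1 hxy.2
      | y => exact absurd rfl hab
      | z => exact hyz
      | w k => exact hyw k
    | z =>
      cases b with
      | x => exact packing_of hxz.1 hxz.2
      | y => exact packing_of hyz.1 hyz.2
      | z => exact absurd rfl hab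
      | w k => exact hzw k
    | w k =>
      cases b with
      | x => exact packing_of (hxw k).1 (hxw k).2
      | y => exact packing_of (hyw k).1 (hyw k).2
      | z => exact packing_of (hzw k).1 (hzw k).2
      | w l =>
        have hne : k ≠ l := fun h => hab (by rw [h])
        rcases lt_or_gt_of_ne hne with h | h
        · exact hww k l h
        · exact packing_of (hww l k h).1 (hww l k h).2

/-! ### Three mutually tangent balls with many common neighbours -/

section space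

variable {E : Type*} [NormedAddCommGroup E] [InnerProductSpace ℝ E]

open scoped InnerProductSpace

/-- The radius of a ball tangent to two tangent balls is proportional to the power of the point
of tangency. -/
theorem power_eq {e c : E} {a b r : ℝ} (ha : 0 < a) (hb : 0 < b) (he : ‖e‖ = 1)
    (h1 : ‖c + a • e‖ = r + a) (h2 : ‖c - b • e‖ = r + b) :
    r = (1 / a + 1 / b) / 4 * (‖c‖ ^ 2 - r ^ 2) := by
  have e1 := norm_add_sq_real c (a • e)
  have e2 := norm_sub_sq_real c (b • e)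
  rw [h1, inner_smul_right, norm_smul, he, Real.norm_of_nonneg ha.le] at e1
  rw [h2, inner_smul_right, norm_smul, he, Real.norm_of_nonneg hb.le] at e2
  have e3 : ‖c‖ ^ 2 - r ^ 2 = 2 * a * (r - ⟪c, e⟫_ℝ) := by nlinarith
  have e4 : ‖c‖ ^ 2 - r ^ 2 = 2 * b * (r + ⟪c, e⟫_ℝ) := by nlinarith
  have e5 : (‖c‖ ^ 2 - r ^ 2) / (2 * a) = r - ⟪c, e⟫_ℝ := by
    rw [e3]; field_simp
  have e6 : (‖c‖ ^ 2 - r ^ 2) / (2 * b) = r + ⟪c, e⟫_ℝ := by
    rw [e4]; field_simp
  have e7 : r = ((‖c‖ ^ 2 - r ^ 2) / (2 * a) + (‖c‖ ^ 2 - r ^ 2) / (2 * b)) / 2 := by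
    rw [e5, e6]; ring
  calc r = ((‖c‖ ^ 2 - r ^ 2) / (2 * a) + (‖c‖ ^ 2 - r ^ 2) / (2 * b)) / 2 := e7
    _ = (1 / a + 1 / b) / 4 * (‖c‖ ^ 2 - r ^ 2) := by field_simp; ring

/-- The distance of the inverted centres. -/
theorem inv_dist {c c' : E} {r r' κ : ℝ} (hκ : 0 < κ) (hr : 0 < r) (hr' : 0 < r')
    (h : r = κ * (‖c‖ ^ 2 - r ^ 2)) (h' : r' = κ * (‖c'‖ ^ 2 - r' ^ 2)) :
    ‖(‖c‖ ^ 2 - r ^ 2)⁻¹ • c - (‖c'‖ ^ 2 - r' ^ 2)⁻¹ • c'‖ ^ 2 = 4 * κ ^ 2 +
      (‖c - c'‖ ^ 2 - (r + r') ^ 2) / ((‖c‖ ^ 2 - r ^ 2) * (‖c'‖ ^ 2 - r' ^ 2)) := by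
  set q := ‖c‖ ^ 2 - r ^ 2 with hq
  set q' := ‖c'‖ ^ 2 - r' ^ 2 with hq'
  have hq0 : 0 < q := by
    by_contra hcon
    push Not at hcon
    have : κ * q ≤ 0 := mul_nonpos_of_nonneg_of_nonpos hκ.le hcon
    linarith
  have hq0' : 0 < q' := by
    by_contra hcon
    push Not at hcon
    have : κ * q' ≤ 0 := mul_nonpos_of_nonneg_of_nonpos hκ.le hcon
    linarith
  rw [norm_sub_sq_real, norm_smul, norm_smul, inner_smul_left, inner_smul_right,
    Real.norm_of_nonneg (inv_nonneg.2 hq0.le), Real.norm_of_nonneg (inv_nonneg.2 hq0'.le)]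
  have e1 := norm_sub_sq_real c c'
  have e2 : ‖c‖ ^ 2 = q + r ^ 2 := by rw [hq]; ring
  have e3 : ‖c'‖ ^ 2 = q' + r' ^ 2 := by rw [hq']; ring
  have e4 : 2 * ⟪c, c'⟫_ℝ = q + r ^ 2 + (q' + r' ^ 2) - ‖c - c'‖ ^ 2 := by
    rw [e1, e2, e3]; ring
  simp only [conj_trivial]
  rw [mul_pow, mul_pow, e2, e3]
  rw [show 2 * (q⁻¹ * (q'⁻¹ * ⟪c, c'⟫_ℝ)) = q⁻¹ * q'⁻¹ * (2 * ⟪c, c'⟫_ℝ) by ring, e4]
  have hqn : q ≠ 0 := hq0.ne'
  have hqn' : q' ≠ 0 := hq0'.ne'
  have e5 : r / q = κ := by rw [h]; field_simp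
  have e6 : r' / q' = κ := by rw [h']; field_simp
  have e7 : q⁻¹ ^ 2 * (q + r ^ 2) + q'⁻¹ ^ 2 * (q' + r' ^ 2) -
      q⁻¹ * q'⁻¹ * (q + r ^ 2 + (q' + r' ^ 2) - ‖c - c'‖ ^ 2) =
      (r / q) ^ 2 + (r' / q') ^ 2 + 2 * (r / q) * (r' / q') +
      (‖c - c'‖ ^ 2 - (r + r') ^ 2) / (q * q') := by
    field_simp
    ring
  have e8 : q⁻¹ ^ 2 * (q + r ^ 2) - q⁻¹ * q'⁻¹ * (q + r ^ 2 + (q' + r' ^ 2) - ‖c - c'‖ ^ 2) +
      q'⁻¹ ^ 2 * (q' + r' ^ 2) = 4 * κ ^ 2 + (‖c - c'‖ ^ 2 - (r + r') ^ 2) / (q * q') := by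
    rw [show q⁻¹ ^ 2 * (q + r ^ 2) - q⁻¹ * q'⁻¹ * (q + r ^ 2 + (q' + r' ^ 2) - ‖c - c'‖ ^ 2) +
      q'⁻¹ ^ 2 * (q' + r' ^ 2) = q⁻¹ ^ 2 * (q + r ^ 2) + q'⁻¹ ^ 2 * (q' + r' ^ 2) -
      q⁻¹ * q'⁻¹ * (q + r ^ 2 + (q' + r' ^ 2) - ‖c - c'‖ ^ 2) by ring, e7, e5, e6]
    ring
  exact e8

end space

/-- Pigeonhole: there are at most `125` points at distance `2κ` from a point of `ℝ^3` with mutual
distances at least `2κ`. -/
theorem kissing {κ : ℝ} (hκ : 0 < κ) (p : Fin 126 → EuclideanSpace ℝ (Fin 3))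
    (h1 : ∀ k, ‖p k‖ = 2 * κ) (h2 : ∀ k l, k ≠ l → 2 * κ ≤ ‖p k - p l‖) : False := by
  have hcoord : ∀ k i, |p k i| ≤ 2 * κ := by
    intro k i
    rw [← h1 k, EuclideanSpace.norm_eq, ← Real.norm_eq_abs]
    apply Real.le_sqrt_of_sq_le
    exact Finset.single_le_sum (f := fun i => ‖p k i‖ ^ 2) (fun j _ => sq_nonneg _) (Finset.mem_univ i)
  have hmaps : ∀ k ∈ (Finset.univ : Finset (Fin 126)), (fun i : Fin 3 => ⌊p k i / κ⌋) ∈
      Fintype.piFinset (fun _ : Fin 3 => Finset.Icc (-2 : ℤ) 2) := by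
    intro k _
    rw [Fintype.mem_piFinset]
    intro i
    have h3 := abs_le.1 (hcoord k i)
    rw [Finset.mem_Icc]
    constructor
    · rw [Int.le_floor, le_div_iff₀ hκ]
      push_cast
      linarith
    · have : p k i / κ ≤ 2 := by
        rw [div_le_iff₀ hκ]; linarith
      have h4 : ⌊p k i / κ⌋ ≤ ⌊(2 : ℝ)⌋ := Int.floor_le_floor this
      simpa using h4
  obtain ⟨k, -, l, -, hkl, heq⟩ := Finset.exists_ne_map_eq_of_card_lt_of_maps_to (by
    rw [Fintype.card_piFinset]; simp) hmaps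
  have h3 := h2 k l hkl
  have h4 : ∀ i, |(p k - p l) i| < κ := by
    intro i
    have h5 := congrFun heq i
    simp only at h5
    have h6 : |p k i / κ - p l i / κ| < 1 := Int.abs_sub_lt_one_of_floor_eq_floor h5
    rw [← sub_div, abs_div, abs_of_pos hκ, div_lt_one hκ] at h6
    exact h6
  have h5 : ‖p k - p l‖ ^ 2 < (2 * κ) ^ 2 := by
    rw [EuclideanSpace.norm_eq, Real.sq_sqrt (Finset.sum_nonneg (fun _ _ => sq_nonneg _)),
      Fin.sum_univ_three]
    have e : ∀ i, ‖(p k - p l) i‖ ^ 2 < κ ^ 2 := by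
      intro i
      rw [Real.norm_eq_abs]
      exact pow_lt_pow_left₀ (h4 i) (abs_nonneg _) (by norm_num)
    have e0 := e 0
    have e1 := e 1
    have e2 := e 2
    nlinarith [sq_nonneg κ]
  have h6 : (2 * κ) ^ 2 ≤ ‖p k - p l‖ ^ 2 := pow_le_pow_left₀ (by positivity) h3 2
  linarith

theorem not_packable (H : SimpleGraph Vx) (hxy : H.Adj x y) (hzx : H.Adj z x) (hzy : H.Adj z y)
    (hxw : ∀ k, H.Adj x (w k)) (hyw : ∀ k, H.Adj y (w k)) (hzw : ∀ k, H.Adj z (w k)) :
    ¬ SpherePackable H := by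
  rintro ⟨c, r, hr, hp⟩
  have htan : ∀ u v, H.Adj u v → dist (c u) (c v) = r u + r v := fun u v h =>
    (hp u v h.ne).2.2 h
  set a := r x with ha'
  set b := r y with hb'
  have ha : 0 < a := hr x
  have hb : 0 < b := hr y
  set e := (a + b)⁻¹ • (c y - c x) with he'
  have hab : 0 < a + b := by linarith
  have he : ‖e‖ = 1 := by
    rw [he', norm_smul, norm_inv, Real.norm_of_nonneg hab.le, ← dist_eq_norm, dist_comm,
      htan x y hxy]
    exact inv_mul_cancel₀ hab.ne'
  have he2 : (a + b) • e = c y - c x := by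
    rw [he', smul_smul, mul_inv_cancel₀ hab.ne', one_smul]
  set t := c x + a • e with ht
  have hcx : c x = t - a • e := by rw [ht]; abel
  have hcy : c y = t + b • e := by
    have : c y = c x + (a + b) • e := by rw [he2]; abel
    rw [this, ht, add_smul]; abel
  set κ := (1 / a + 1 / b) / 4 with hκ'
  have hκ : 0 < κ := by rw [hκ']; positivity
  -- the power relation
  have hpow : ∀ v, H.Adj x v → H.Adj y v → r v = κ * (‖c v - t‖ ^ 2 - r v ^ 2) := by
    intro v hx hy
    apply power_eq ha hb he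
    · have := htan x v hx
      rw [dist_comm, dist_eq_norm, hcx] at this
      rw [show c v - t + a • e = c v - (t - a • e) by abel, this, add_comm]
    · have := htan y v hy
      rw [dist_comm, dist_eq_norm, hcy] at this
      rw [show c v - t - b • e = c v - (t + b • e) by abel, this, add_comm]
  have hz := hpow z hzx.symm hzy.symm
  have hw := fun k => hpow (w k) (hxw k) (hyw k)
  have hqpos : ∀ v, r v = κ * (‖c v - t‖ ^ 2 - r v ^ 2) → 0 < ‖c v - t‖ ^ 2 - r v ^ 2 := by
    intro v hv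
    by_contra hcon
    push Not at hcon
    have h1 : κ * (‖c v - t‖ ^ 2 - r v ^ 2) ≤ 0 := mul_nonpos_of_nonneg_of_nonpos hκ.le hcon
    have := hr v
    linarith
  let p : Vx → EuclideanSpace ℝ (Fin 3) := fun v => (‖c v - t‖ ^ 2 - r v ^ 2)⁻¹ • (c v - t)
  apply kissing hκ (fun k => p (w k) - p z)
  · intro k
    have h1 := inv_dist hκ (hr (w k)) (hr z) (hw k) hz
    have h2 : ‖(c (w k) - t) - (c z - t)‖ = r (w k) + r z := by
      rw [sub_sub_sub_cancel_right, ← dist_eq_norm]
      exact htan _ _ (hzw k).symm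
    rw [h2, sub_self, zero_div, add_zero] at h1
    have h3 : ‖p (w k) - p z‖ ^ 2 = (2 * κ) ^ 2 := by
      rw [show (2 * κ) ^ 2 = 4 * κ ^ 2 by ring]; exact h1
    exact (pow_left_inj₀ (norm_nonneg _) (by positivity) (by norm_num)).1 h3
  · intro k l hkl
    have h1 := inv_dist hκ (hr (w k)) (hr (w l)) (hw k) (hw l)
    have hne : w k ≠ w l := fun h => hkl (by simpa using h)
    have h2 : r (w k) + r (w l) ≤ ‖(c (w k) - t) - (c (w l) - t)‖ := by
      rw [sub_sub_sub_cancel_right, ← dist_eq_norm]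
      exact (hp _ _ hne).1
    have h3 : (r (w k) + r (w l)) ^ 2 ≤ ‖(c (w k) - t) - (c (w l) - t)‖ ^ 2 :=
      pow_le_pow_left₀ (by have := hr (w k); have := hr (w l); linarith) h2 2
    have h4 : (2 * κ) ^ 2 ≤ ‖p (w k) - p (w l)‖ ^ 2 := by
      change (2 * κ) ^ 2 ≤ ‖(‖c (w k) - t‖ ^ 2 - r (w k) ^ 2)⁻¹ • (c (w k) - t) -
        (‖c (w l) - t‖ ^ 2 - r (w l) ^ 2)⁻¹ • (c (w l) - t)‖ ^ 2
      rw [h1]
      have h5 : 0 ≤ (‖(c (w k) - t) - (c (w l) - t)‖ ^ 2 - (r (w k) + r (w l)) ^ 2) /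
          ((‖c (w k) - t‖ ^ 2 - r (w k) ^ 2) * (‖c (w l) - t‖ ^ 2 - r (w l) ^ 2)) := by
        apply div_nonneg (by linarith)
        exact mul_nonneg (hqpos _ (hw k)).le (hqpos _ (hw l)).le
      nlinarith
    rw [sub_sub_sub_cancel_right]
    exact (pow_le_pow_iff_left₀ (by positivity) (norm_nonneg _) (by norm_num)).1 h4

/-- the height function -/
def ht : Vx → ℤ
  | z => 0
  | _ => 1

/-- **Theorem.** There are a finite graph `G` with a circle packing in the plane (hence a planar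
graph), a height function and a choice of nearest lower vertices for which the augmented graph is
not sphere packable in `ℝ^3`. -/
theorem result : ∃ (V : Type) (_ : Finite V) (G : SimpleGraph V)
    (c : V → EuclideanSpace ℝ (Fin 2)) (r : V → ℝ) (f : V → ℤ) (ν : V → V),
    IsPacking 2 G c r ∧ IsHeight G f ∧ IsNearestLower c f ν ∧ ¬ SpherePackable (augment G f ν) := by
  refine ⟨Vx, inferInstance, G0, cen, rad, ht, fun _ => z, packing, ?_, ?_, ?_⟩
  · intro u v _
    cases u <;> cases v <;> simp [ht]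
  · intro v hv
    obtain ⟨u, hu⟩ := hv
    have hz : ∀ u v, ht u < ht v → u = z ∧ ht v = 1 := by
      intro u v h
      cases u <;> cases v <;> simp_all [ht]
    obtain ⟨rfl, h1⟩ := hz u v hu
    refine ⟨hu, ?_⟩
    intro u' hu'
    rw [(hz u' v hu').1]
  · have hlow : ∀ v, v ≠ z → ∃ u, ht u < ht v := by
      intro v hv
      refine ⟨z, ?_⟩
      cases v with
      | z => exact absurd rfl hv
      | x => simp [ht]
      | y => simp [ht]
      | w k => simp [ht]
    have hz : ∀ v, v ≠ z → (augment G0 ht (fun _ => z)).Adj z v := by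
      intro v hv
      unfold augment
      rw [SimpleGraph.fromRel_adj]
      exact ⟨Ne.symm hv, Or.inr (Or.inr ⟨hlow v hv, rfl⟩)⟩
    have hG : ∀ u v, G0.Adj u v → (augment G0 ht (fun _ => z)).Adj u v := by
      intro u v huv
      unfold augment
      rw [SimpleGraph.fromRel_adj]
      exact ⟨huv.ne, Or.inl (Or.inl huv)⟩
    apply not_packable
    · exact hG _ _ ((G0_adj _ _).2 (by simp))
    · exact hz _ (by simp)
    · exact hz _ (by simp)
    · intro k; exact hG _ _ ((G0_adj _ _).2 (by simp))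
    · intro k; exact hG _ _ ((G0_adj _ _).2 (by simp))
    · intro k; exact hz _ (by simp)

end Pool.Agent.Results.MP_ffcab7_co.NotSpherePackable
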